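import Mathlib

namespace Pool.Agent.Results.MP_9b412f_an.Exists

open Set Matrix

/-- The data `A_i` (symmetric), `b_i`, `c_i` of `m` quadratics on `ℝⁿ`. -/
structure Data (n m : ℕ) where
  A : Fin m → Matrix (Fin n) (Fin n) ℝ
  b : Fin m → Fin n → ℝ
  c : Fin m → ℝ
  symm : ∀ i, (A i).IsSymm

variable {n m : ℕ} (D : Data n m)

/-- `f_i(x) = xᵀ A_i x + 2 b_iᵀ x + c_i`. -/
def Data.f (i : Fin m) (x : Fin n → ℝ) : ℝ := x ⬝ᵥ D.A i *ᵥ x + 2 * (D.b i ⬝ᵥ x) + D.c i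

/-- The `(n+1) × (n+1)` block matrix `Q_i`. -/
def Data.Q (i : Fin m) : Matrix (Fin n ⊕ Unit) (Fin n ⊕ Unit) ℝ :=
  fromBlocks (D.A i) (of fun k _ => D.b i k) (of fun _ k => D.b i k) (of fun _ _ => D.c i)

/-- The set `S`. -/
def Data.S : Set (Fin n → ℝ) := {x | ∀ i, D.f i x < 0}

/-- Hidden hyperplane convexity of the homogeneous map `z ↦ (zᵀ Q_i z)_i` on `ℝⁿ⁺¹`. -/
def Data.HHC : Prop := ∀ H : Submodule ℝ (Fin n ⊕ Unit → ℝ), Module.finrank ℝ H = n →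
  Convex ℝ ((fun z i => z ⬝ᵥ D.Q i *ᵥ z) '' (H : Set (Fin n ⊕ Unit → ℝ)))

/-- The aggregated set `S_λ`. -/
def Data.agg (l : Fin m → ℝ) : Set (Fin n → ℝ) := {x | ∑ i, l i * D.f i x < 0}

/-- Good aggregation: `λ ≥ 0`, `λ ≠ 0`, `Q_λ` has at most one negative eigenvalue (counted with
multiplicity), and `conv S ⊆ S_λ`. -/
def Data.Good (l : Fin m → ℝ) : Prop :=
  (∀ i, 0 ≤ l i) ∧ l ≠ 0 ∧ ((∑ i, l i • D.Q i).charpoly.roots.filter (· < 0)).card ≤ 1 ∧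
    convexHull ℝ D.S ⊆ D.agg l

theorem eig {ι : Type} [Fintype ι] [DecidableEq ι] (Q : Matrix ι ι ℝ) (hQ : Q.IsHermitian)
    (h : (Q.charpoly.roots.filter (· < 0)).card ≤ 1) (y z : ι → ℝ) :
    ∃ s t : ℝ, 0 < s ^ 2 + t ^ 2 ∧ 0 ≤ (s • y + t • z) ⬝ᵥ Q *ᵥ (s • y + t • z) := by
  obtain ⟨U, hU⟩ : ∃ U : Matrix ι ι ℝ, Q = U * diagonal hQ.eigenvalues * Uᵀ :=
    ⟨hQ.eigenvectorUnitary, by
      simpa [Unitary.conjStarAlgAut_apply, star_eq_conjTranspose] using hQ.spectral_theorem⟩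
  have q : ∀ x, x ⬝ᵥ Q *ᵥ x = ∑ j, hQ.eigenvalues j * (x ᵥ* U) j ^ 2 := fun x => by
    conv_lhs => rw [hU, ← mulVec_mulVec, ← mulVec_mulVec, dotProduct_mulVec, mulVec_transpose]
    simp only [dotProduct, mulVec_diagonal]
    exact Finset.sum_congr rfl fun j _ => by ring
  rw [hQ.roots_charpoly_eq_eigenvalues, Multiset.filter_map, Multiset.card_map] at h
  have h1 := Finset.card_le_one.1 (show (Finset.univ.filter fun j => hQ.eigenvalues j < 0).card ≤ 1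
    from h)
  have key : ∀ s t : ℝ, (∀ j, hQ.eigenvalues j < 0 → s * (y ᵥ* U) j + t * (z ᵥ* U) j = 0) →
      0 ≤ (s • y + t • z) ⬝ᵥ Q *ᵥ (s • y + t • z) := fun s t H => by
    rw [q]
    refine Finset.sum_nonneg fun j _ => ?_
    rcases lt_or_ge (hQ.eigenvalues j) 0 with hj | hj
    · simp [add_vecMul, smul_vecMul, H j hj]
    · positivity
  by_cases e : ∃ j, hQ.eigenvalues j < 0 ∧ (y ᵥ* U) j ≠ 0
  · obtain ⟨j, hj, hy⟩ := e
    refine ⟨-(z ᵥ* U) j, (y ᵥ* U) j, by positivity, key _ _ fun k hk => ?_⟩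
    rw [h1 k (by simpa using hk) j (by simpa using hj)]
    ring
  · push Not at e
    exact ⟨1, 0, by norm_num, key _ _ fun k hk => by simp [e k hk]⟩

theorem gram (a c b h : ℝ) (ha : 0 ≤ a) (hc : 0 ≤ c) (e : h ^ 2 + b ^ 2 = a * c) :
    ∃ w0 w1 w2 w3 : ℝ, w0 ^ 2 + w1 ^ 2 = a ∧ w2 ^ 2 + w3 ^ 2 = c ∧ w0 * w2 + w1 * w3 = b ∧
      w0 * w3 - w1 * w2 = h := by
  rcases ha.eq_or_lt with rfl | ha
  · have hb : b = 0 := by nlinarith
    have hh : h = 0 := by nlinarith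
    exact ⟨0, 0, √c, 0, by simp, by simp [hc], by simp [hb], by simp [hh]⟩
  · have s0 : √a ≠ 0 := by positivity
    have s := Real.sq_sqrt ha.le
    refine ⟨√a, 0, b / √a, h / √a, by simp [ha.le], ?_, by field_simp; ring, by field_simp; ring⟩
    rw [div_pow, div_pow, s]
    field_simp
    linarith

theorem rot (R I T : ℝ) (h : T ^ 2 ≤ R ^ 2 + I ^ 2) :
    ∃ p q : ℝ, p ^ 2 + q ^ 2 = 1 ∧ p * R + q * I = T := by
  rcases (show 0 ≤ R ^ 2 + I ^ 2 by positivity).eq_or_lt with h0 | h0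
  · have h1 : R = 0 := by nlinarith
    have h2 : T = 0 := by nlinarith
    exact ⟨1, 0, by simp, by simp [h1, h2]⟩
  · have s := Real.sq_sqrt (sub_nonneg.2 h)
    generalize √(R ^ 2 + I ^ 2 - T ^ 2) = k at s
    refine ⟨(T * R - k * I) / (R ^ 2 + I ^ 2), (T * I + k * R) / (R ^ 2 + I ^ 2), ?_, ?_⟩
    · field_simp
      linear_combination (R ^ 2 + I ^ 2) * s
    · field_simp
      ring

theorem fill (c0 c1 c2 c3 x0 x1 x2 x3 v0 v1 v2 v3 : ℝ) : ∃ w0 w1 w2 w3 : ℝ,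
    w0 ^ 2 + w1 ^ 2 = x0 ^ 2 + x1 ^ 2 + (v0 ^ 2 + v1 ^ 2) ∧
    w2 ^ 2 + w3 ^ 2 = x2 ^ 2 + x3 ^ 2 + (v2 ^ 2 + v3 ^ 2) ∧
    w0 * w2 + w1 * w3 = x0 * x2 + x1 * x3 + (v0 * v2 + v1 * v3) ∧
    c0 * w0 + c1 * w1 + c2 * w2 + c3 * w3 = c0 * x0 + c1 * x1 + c2 * x2 + c3 * x3 := by
  set a := x0 ^ 2 + x1 ^ 2 + (v0 ^ 2 + v1 ^ 2) with ha
  set c := x2 ^ 2 + x3 ^ 2 + (v2 ^ 2 + v3 ^ 2) with hc
  set b := x0 * x2 + x1 * x3 + (v0 * v2 + v1 * v3) with hb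
  have d : (x0 * x3 - x1 * x2) ^ 2 ≤ a * c - b ^ 2 := by
    have : a * c - b ^ 2 = (x0 * x3 - x1 * x2) ^ 2 + ((v0 * v3 - v1 * v2) ^ 2 +
      (x0 * v2 - x2 * v0) ^ 2 + (x0 * v3 - x2 * v1) ^ 2 + (x1 * v2 - x3 * v0) ^ 2 +
      (x1 * v3 - x3 * v1) ^ 2) := by rw [ha, hb, hc]; ring
    rw [this]; exact le_add_of_nonneg_right (by positivity)
  obtain ⟨h, h1, h2⟩ : ∃ h : ℝ, h ^ 2 + b ^ 2 = a * c ∧
      (c0 * c3 - c1 * c2) * (x0 * x3 - x1 * x2) ≤ (c0 * c3 - c1 * c2) * h := by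
    have s := Real.sq_sqrt ((sq_nonneg _).trans d)
    have t := abs_le.1 (Real.abs_le_sqrt d)
    rcases le_total 0 (c0 * c3 - c1 * c2) with e | e
    · exact ⟨_, by linarith, mul_le_mul_of_nonneg_left t.2 e⟩
    · exact ⟨_, by rw [neg_sq]; linarith, mul_le_mul_of_nonpos_left t.1 e⟩
  obtain ⟨w0, w1, w2, w3, e1, e2, e3, e4⟩ := gram a c b h (by positivity) (by positivity) h1
  obtain ⟨p, q, f1, f2⟩ := rot (c0 * w0 + c1 * w1 + c2 * w2 + c3 * w3)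
    (c1 * w0 - c0 * w1 + c3 * w2 - c2 * w3) (c0 * x0 + c1 * x1 + c2 * x2 + c3 * x3) (by
      have : (c0 * w0 + c1 * w1 + c2 * w2 + c3 * w3) ^ 2 +
          (c1 * w0 - c0 * w1 + c3 * w2 - c2 * w3) ^ 2 = (c0 ^ 2 + c1 ^ 2) * a +
          (c2 ^ 2 + c3 ^ 2) * c + 2 * (c0 * c2 + c1 * c3) * b + 2 * ((c0 * c3 - c1 * c2) * h) := by
        rw [← e1, ← e2, ← e3, ← e4]; ring
      rw [this, ha, hb, hc]
      nlinarith [sq_nonneg (c1 * x0 - c0 * x1 + c3 * x2 - c2 * x3),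
        sq_nonneg (c0 * v0 + c2 * v2), sq_nonneg (c0 * v1 + c2 * v3),
        sq_nonneg (c1 * v0 + c3 * v2), sq_nonneg (c1 * v1 + c3 * v3)])
  exact ⟨p * w0 - q * w1, p * w1 + q * w0, p * w2 - q * w3, p * w3 + q * w2,
    by linear_combination e1 + (w0 ^ 2 + w1 ^ 2) * f1,
    by linear_combination e2 + (w2 ^ 2 + w3 ^ 2) * f1,
    by linear_combination e3 + (w0 * w2 + w1 * w3) * f1, by linear_combination f2⟩

/-- The block form `α a + 2 β b + γ c` of the Gram entries of a `2 × 2` matrix. -/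
def blk (α β γ : ℝ) : Matrix (Fin 4) (Fin 4) ℝ := !![α, 0, β, 0; 0, α, 0, β; β, 0, γ, 0; 0, β, 0, γ]

/-- The example. -/
def ex : Data 4 3 where
  A i := blk (![4, 0, 0] i) (![-1, 3, -1] i) (![-2, 2, 2] i)
  b _ := 0
  c _ := -2
  symm i := by ext j k; fin_cases j <;> fin_cases k <;> rfl

theorem exf (i : Fin 3) (x : Fin 4 → ℝ) : ex.f i x = ![4, 0, 0] i * (x 0 ^ 2 + x 1 ^ 2) +
    2 * ![-1, 3, -1] i * (x 0 * x 2 + x 1 * x 3) + ![-2, 2, 2] i * (x 2 ^ 2 + x 3 ^ 2) - 2 := by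
  simp [Data.f, ex, blk, dotProduct, mulVec, Fin.sum_univ_four]; ring

theorem exQ (i : Fin 3) (z : Fin 4 ⊕ Unit → ℝ) : z ⬝ᵥ ex.Q i *ᵥ z =
    ![4, 0, 0] i * (z (.inl 0) ^ 2 + z (.inl 1) ^ 2) +
    2 * ![-1, 3, -1] i * (z (.inl 0) * z (.inl 2) + z (.inl 1) * z (.inl 3)) +
    ![-2, 2, 2] i * (z (.inl 2) ^ 2 + z (.inl 3) ^ 2) - 2 * z (.inr ()) ^ 2 := by
  simp [Data.Q, ex, blk, dotProduct, mulVec, Fin.sum_univ_four]; ring

theorem hhc : ex.HHC := by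
  intro H hH
  have d5 : Module.finrank ℝ (Fin 4 ⊕ Unit → ℝ) = 5 := by simp
  obtain ⟨l, l0, hl⟩ := H.exists_le_ker_of_lt_top (lt_top_iff_ne_top.2 fun h => by
    rw [h, finrank_top, d5] at hH; omega)
  obtain rfl : H = LinearMap.ker l := Submodule.eq_of_le_of_finrank_le hl (by
    have := Submodule.finrank_lt (mt LinearMap.ker_eq_top.1 l0)
    omega)
  obtain ⟨c, hc⟩ : ∃ c : Fin 4 ⊕ Unit → ℝ, ∀ z, l z = c (.inl 0) * z (.inl 0) +
      c (.inl 1) * z (.inl 1) + c (.inl 2) * z (.inl 2) + c (.inl 3) * z (.inl 3) +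
      c (.inr ()) * z (.inr ()) := ⟨fun k => l fun j => if k = j then 1 else 0, fun z => by
    rw [LinearMap.pi_apply_eq_sum_univ]
    simp [Fin.sum_univ_four, mul_comm]⟩
  have add : ∀ x ∈ LinearMap.ker l, ∀ y ∈ LinearMap.ker l, ∃ z ∈ LinearMap.ker l, ∀ i,
      z ⬝ᵥ ex.Q i *ᵥ z = x ⬝ᵥ ex.Q i *ᵥ x + y ⬝ᵥ ex.Q i *ᵥ y := by
    intro x hx y hy
    rw [LinearMap.mem_ker, hc] at hx hy
    obtain ⟨p, q, f1, f2⟩ := rot (y (.inr ())) (-x (.inr ())) 0 (by simp; positivity)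
    obtain ⟨w0, w1, w2, w3, e1, e2, e3, e4⟩ := fill (c (.inl 0)) (c (.inl 1)) (c (.inl 2))
      (c (.inl 3)) (p * x (.inl 0) + q * y (.inl 0)) (p * x (.inl 1) + q * y (.inl 1))
      (p * x (.inl 2) + q * y (.inl 2)) (p * x (.inl 3) + q * y (.inl 3))
      (q * x (.inl 0) - p * y (.inl 0)) (q * x (.inl 1) - p * y (.inl 1))
      (q * x (.inl 2) - p * y (.inl 2)) (q * x (.inl 3) - p * y (.inl 3))
    refine ⟨Sum.elim ![w0, w1, w2, w3] fun _ => p * x (.inr ()) + q * y (.inr ()), ?_, fun i => ?_⟩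
    · rw [LinearMap.mem_ker, hc]
      simp
      linear_combination e4 + p * hx + q * hy
    · simp only [exQ]
      generalize (![4, 0, 0] : Fin 3 → ℝ) i = α
      generalize (![-1, 3, -1] : Fin 3 → ℝ) i = β
      generalize (![-2, 2, 2] : Fin 3 → ℝ) i = γ
      simp
      rw [e1, e2, e3]
      linear_combination (α * (x (.inl 0) ^ 2 + x (.inl 1) ^ 2 + y (.inl 0) ^ 2 + y (.inl 1) ^ 2) +
        2 * β * (x (.inl 0) * x (.inl 2) + x (.inl 1) * x (.inl 3) + y (.inl 0) * y (.inl 2) +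
          y (.inl 1) * y (.inl 3)) +
        γ * (x (.inl 2) ^ 2 + x (.inl 3) ^ 2 + y (.inl 2) ^ 2 + y (.inl 3) ^ 2) -
        2 * (x (.inr ()) ^ 2 + y (.inr ()) ^ 2)) * f1 +
        2 * (p * y (.inr ()) - q * x (.inr ())) * f2
  rintro _ ⟨x, hx, rfl⟩ _ ⟨y, hy, rfl⟩ a b ha hb -
  obtain ⟨z, hz, h⟩ := add _ (Submodule.smul_mem _ √a hx) _ (Submodule.smul_mem _ √b hy)
  refine ⟨z, hz, funext fun i => ?_⟩
  simp only [h, mulVec_smul, smul_dotProduct, dotProduct_smul, smul_eq_mul, ← mul_assoc,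
    Real.mul_self_sqrt ha, Real.mul_self_sqrt hb, Pi.add_apply, Pi.smul_apply]

theorem half (p q : ℝ) (h : p ^ 2 + q ^ 2 = 1) :
    convexHull ℝ ex.S ⊆ {x | p * x 0 + q * x 2 < 1} := by
  refine convexHull_min (fun x hx => ?_) (convex_halfSpace_lt
    ⟨fun x y => by simp; ring, fun a x => by simp; ring⟩ 1)
  have h0 := hx 0
  have h1 := hx 1
  have h2 := hx 2
  simp [exf] at h0 h1 h2
  have k2 : 0 < p ^ 2 - 2 * p * q + 3 * q ^ 2 := by nlinarith [sq_nonneg (p - 2 * q), sq_nonneg (p - q)]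
  have a0 := mul_nonneg (sq_nonneg p) (sub_nonneg.2 h0.le)
  have a1 := mul_nonneg (sq_nonneg (p + q)) (sub_nonneg.2 h1.le)
  have a2 := mul_pos k2 (sub_pos.2 h2)
  have : (p * x 0 + q * x 2) ^ 2 + (p * x 1 + q * x 3) ^ 2 < 1 := by nlinarith
  show p * x 0 + q * x 2 < 1
  nlinarith [sq_nonneg (p * x 1 + q * x 3), sq_nonneg (p * x 0 + q * x 2 - 1)]

theorem result : ∃ (n m : ℕ) (D : Data n m), 1 ≤ n ∧ 1 ≤ m ∧ D.HHC ∧ D.S.Nonempty ∧
    convexHull ℝ D.S ≠ univ ∧ ¬ ∃ (r : ℕ) (L : Fin r → Fin m → ℝ), 1 ≤ r ∧ (∀ j, D.Good (L j)) ∧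
      convexHull ℝ D.S = ⋂ j, D.agg (L j) := by
  refine ⟨4, 3, ex, by norm_num, by norm_num, hhc, ⟨0, fun i => by simp [exf]⟩, fun h => ?_, ?_⟩
  · have := half 1 0 (by norm_num) (h ▸ mem_univ (fun _ => 1))
    simp at this
  rintro ⟨r, L, -, hL, h⟩
  let P : Fin r → ℝ → ℝ := fun j θ => 4 * L j 0 * θ ^ 2 - 2 * (-L j 0 + 3 * L j 1 - L j 2) * θ +
    (-2 * L j 0 + 2 * L j 1 + 2 * L j 2)
  have fin : ∀ j, {θ | P j θ = 0}.Finite := fun j => by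
    open Polynomial in
    have := finite_setOf_isRoot (p := C (4 * L j 0) * X ^ 2 -
      C (2 * (-L j 0 + 3 * L j 1 - L j 2)) * X + C (-2 * L j 0 + 2 * L j 1 + 2 * L j 2)) fun h => by
        have h1 := congrArg (eval 1) h
        have h2 := congrArg (eval (-1)) h
        simp at h1 h2
        have := (hL j).1 0
        have := (hL j).1 1
        have := (hL j).1 2
        refine (hL j).2.1 (funext fun i => ?_)
        fin_cases i <;> simp <;> linarith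
    simpa [P] using this
  obtain ⟨θ, hθ⟩ := (finite_iUnion fin).infinite_compl.nonempty
  have pos : ∀ j, 0 < P j θ := fun j => by
    obtain ⟨s, t, h1, h2⟩ := eig (∑ i, L j i • ex.Q i) (by
        ext a b
        rcases a with a | a <;> rcases b with b | b <;>
          simp [Matrix.sum_apply, Data.Q, (ex.symm _).apply]) (hL j).2.2.1
      (Sum.elim ![θ, 0, -1, 0] 0) (Sum.elim ![0, θ, 0, -1] 0)
    simp only [Fin.sum_univ_three, add_mulVec, smul_mulVec, dotProduct_add, dotProduct_smul,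
      exQ] at h2
    simp at h2
    refine lt_of_le_of_ne (le_of_mul_le_mul_left (a := s ^ 2 + t ^ 2) ?_ h1)
      fun e => hθ (mem_iUnion.2 ⟨j, e.symm⟩)
    simp only [P]
    linarith
  have s0 : 0 < 1 + θ ^ 2 := by positivity
  obtain ⟨p, hp⟩ : ∃ p : ℝ, p ^ 2 * (1 + θ ^ 2) = 1 :=
    ⟨(√(1 + θ ^ 2))⁻¹, by rw [inv_pow, Real.sq_sqrt s0.le, inv_mul_cancel₀ s0.ne']⟩
  have := half p (θ * p) (by linarith) (a := ![p, 0, θ * p, 0]) (h ▸ mem_iInter.2 fun j => by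
    have p0 : 0 < p ^ 2 := (mul_pos_iff_of_pos_right s0).1 (by rw [hp]; exact one_pos)
    have := mul_pos p0 (pos j)
    simp only [P] at this
    simp [Data.agg, Fin.sum_univ_three, exf]
    linear_combination this + 2 * (L j 0 + L j 1 + L j 2) * hp)
  simp at this
  linarith

end Pool.Agent.Results.MP_9b412f_an.Exists
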